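import Mathlib
import Pool.Agent.H295R2.T7
import Pool.Agent.H295R2.T1loc

/-!
# Upper bound for the Franel-Landau sum in short windows
-/

set_option autoImplicit false

open MeasureTheory Filter Topology Set
open H332.FL (sw)

namespace Pool.Agent.Y754.FR

open Pool.Agent.H295R2

noncomputable section

/-! ### one gap -/

lemma gap_lower {n k : ℕ} (hk1 : 1 ≤ k) (hk : k < (farey n).card) :
    (1 : ℝ) ≤ (n : ℝ) ^ 2 * (gg n (k + 1) - gg n k) := by
  obtain ⟨j, rfl⟩ : ∃ j, k = j + 1 := ⟨k - 1, by omega⟩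
  have hj : j < (farey n).card := by omega
  rw [gg_succ hk, gg_succ hj]
  have h := farey_sep ((farey n).orderEmbOfFin_mem rfl ⟨j, hj⟩)
    ((farey n).orderEmbOfFin_mem rfl ⟨j + 1, hk⟩)
    (((farey n).orderEmbOfFin rfl).strictMono (by simp [Fin.lt_def]))
  unfold fareyNth
  exact h

lemma gap_upper {n k : ℕ} (hn : 1 ≤ n) (hk1 : 1 ≤ k) (hk : k < (farey n).card) :
    gg n (k + 1) ≤ gg n k + 1 / n := by
  obtain ⟨j, rfl⟩ : ∃ j, k = j + 1 := ⟨k - 1, by omega⟩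
  have hj : j < (farey n).card := by omega
  have hn0 : (0 : ℝ) < n := by exact_mod_cast hn
  have hnq : (0 : ℚ) < n := by exact_mod_cast hn
  set x : ℚ := (farey n).orderEmbOfFin rfl ⟨j, hj⟩ with hx
  set z : ℚ := (farey n).orderEmbOfFin rfl ⟨j + 1, hk⟩ with hz
  have hxm := mem_farey.1 ((farey n).orderEmbOfFin_mem rfl ⟨j, hj⟩)
  have hzm := mem_farey.1 ((farey n).orderEmbOfFin_mem rfl ⟨j + 1, hk⟩)
  rw [← hx] at hxm
  rw [← hz] at hzm
  have hxz : x < z := ((farey n).orderEmbOfFin rfl).strictMono (by simp [Fin.lt_def])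
  have hx1 : x < 1 := lt_of_lt_of_le hxz hzm.2.1
  set m : ℕ := ⌊(n : ℚ) * x⌋₊ + 1 with hm
  have hnx0 : 0 ≤ (n : ℚ) * x := by
    have := hxm.1
    positivity
  have h1 : (n : ℚ) * x < m := by
    rw [hm]
    push_cast
    exact Nat.lt_floor_add_one _
  have h2 : (m : ℚ) ≤ n * x + 1 := by
    rw [hm]
    push_cast
    have := Nat.floor_le hnx0
    linarith
  have h3 : m ≤ n := by
    have h4 : (n : ℚ) * x < n := by nlinarith
    have h5 : ⌊(n : ℚ) * x⌋₊ < n := (Nat.floor_lt hnx0).2 h4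
    omega
  set y : ℚ := (m : ℚ) / n with hy
  have hy0 : 0 < y := by
    rw [hy]
    have : (0 : ℚ) < m := by
      rw [hm]
      push_cast
      positivity
    positivity
  have hxy : x < y := by
    rw [hy, lt_div_iff₀ hnq]
    linarith
  have hym : y ∈ farey n := by
    unfold farey
    simp only [Finset.mem_filter, Finset.mem_image, Finset.mem_product, Finset.mem_Icc,
      Prod.exists]
    refine ⟨⟨m, n, ⟨⟨by omega, h3⟩, hn, le_rfl⟩, rfl⟩, ?_⟩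
    rw [hy, div_le_one hnq]
    exact_mod_cast h3
  have hy2 : y ≤ x + 1 / n := by
    rw [hy, div_le_iff₀ hnq]
    have : (x + 1 / n) * n = n * x + 1 := by
      field_simp
    rw [this]
    exact h2
  obtain ⟨i, hi⟩ : ∃ i, (farey n).orderEmbOfFin rfl i = y := by
    have := Finset.range_orderEmbOfFin (farey n) rfl
    have h6 : y ∈ Set.range ((farey n).orderEmbOfFin rfl) := by
      rw [this]
      exact hym
    exact h6
  have hji : (⟨j, hj⟩ : Fin (farey n).card) < i := by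
    rw [← ((farey n).orderEmbOfFin rfl).lt_iff_lt, hi]
    exact hxy
  have hji2 : (⟨j + 1, hk⟩ : Fin (farey n).card) ≤ i := by
    rw [Fin.le_def]
    rw [Fin.lt_def] at hji
    simp only at hji ⊢
    omega
  have hzy : z ≤ y := by
    rw [← hi]
    exact ((farey n).orderEmbOfFin rfl).monotone hji2
  rw [gg_succ hk, gg_succ hj]
  unfold fareyNth
  rw [← hx, ← hz]
  have h7 : z ≤ x + 1 / n := hzy.trans hy2
  have h8 : ((z : ℚ) : ℝ) ≤ ((x + 1 / n : ℚ) : ℝ) := by exact_mod_cast h7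
  push_cast at h8
  exact h8

lemma gap_integral {n : ℕ} (hn : 1 ≤ n) {k : ℕ} (hk : k < (farey n).card) :
    ∫ t in (gg n k)..(gg n (k + 1)), Ef n t ^ 2 =
      (((farey n).card * gg n (k + 1) - k) ^ 3 - ((farey n).card * gg n k - k) ^ 3) /
        (3 * (farey n).card) := by
  have hA0 : (0 : ℝ) < (farey n).card := by exact_mod_cast t1_card_pos hn
  have hlt := gg_lt hk
  have h4 : ∫ t in (gg n k)..(gg n (k + 1)), Ef n t ^ 2 =
      ∫ t in (gg n k)..(gg n (k + 1)), ((k : ℝ) - (farey n).card * t) ^ 2 := by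
    rw [intervalIntegral.integral_of_le hlt.le, intervalIntegral.integral_of_le hlt.le,
      integral_Ioc_eq_integral_Ioo, integral_Ioc_eq_integral_Ioo]
    refine setIntegral_congr_fun measurableSet_Ioo fun t ht => ?_
    have ht0 : 0 ≤ t := gg_nonneg.trans ht.1.le
    have ht1 : t ≤ 1 := ht.2.le.trans gg_le_one
    rw [← cnt_sub hn ht0 ht1, cnt_on hk ht.1 ht.2]
  rw [h4, cube_integral _ _ _ _ hA0.ne']

/-- the square of one displacement -/
lemma u_sq_le {n : ℕ} (hn : 1 ≤ n) {k : ℕ} (hk1 : 1 ≤ k) (hk : k < (farey n).card) :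
    ((farey n).card * gg n k - k) ^ 2 ≤
      4 * (n : ℝ) ^ 2 * ∫ t in (gg n k)..(gg n (k + 1)), Ef n t ^ 2 := by
  have hA0 : (0 : ℝ) < (farey n).card := by exact_mod_cast t1_card_pos hn
  have hg := gap_lower hk1 hk
  rw [gap_integral hn hk]
  set A : ℝ := ((farey n).card : ℝ) with hA
  set u : ℝ := A * gg n k - k with hu
  set v : ℝ := A * gg n (k + 1) - k with hv
  have hvu : v - u = A * (gg n (k + 1) - gg n k) := by rw [hu, hv]; ring
  have h1 : (v ^ 3 - u ^ 3) / (3 * A) = (gg n (k + 1) - gg n k) * (v ^ 2 + u * v + u ^ 2) / 3 := by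
    have : v ^ 3 - u ^ 3 = (v - u) * (v ^ 2 + u * v + u ^ 2) := by ring
    rw [this, hvu]
    field_simp
  rw [h1]
  have h2 : 3 / 4 * u ^ 2 ≤ v ^ 2 + u * v + u ^ 2 := by nlinarith [sq_nonneg (v + u / 2)]
  have h3 : 4 * (n : ℝ) ^ 2 * ((gg n (k + 1) - gg n k) * (v ^ 2 + u * v + u ^ 2) / 3) =
      ((n : ℝ) ^ 2 * (gg n (k + 1) - gg n k)) * (4 / 3 * (v ^ 2 + u * v + u ^ 2)) := by ring
  rw [h3]
  have h4 : 0 ≤ 4 / 3 * (v ^ 2 + u * v + u ^ 2) := by
    have := sq_nonneg u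
    linarith
  nlinarith

/-! ### the sum over a window -/

lemma disp_eq {n : ℕ} (hn : 1 ≤ n) (j : Fin (farey n).card) :
    disp n j ^ 2 = ((farey n).card * gg n (j + 1) - ((j + 1 : ℕ) : ℝ)) ^ 2 /
      ((farey n).card : ℝ) ^ 2 := by
  have hA0 : (0 : ℝ) < (farey n).card := by exact_mod_cast t1_card_pos hn
  have hj : (j : ℕ) < (farey n).card := j.2
  rw [gg_succ hj]
  unfold disp
  rw [sq_abs, ← div_pow]
  congr 1
  push_cast
  field_simp

/-- the second moment of the displacements in a window -/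
lemma disp_sq_loc {n : ℕ} (hn : 1 ≤ n) {a b : ℝ} :
    (n : ℝ) ^ 2 * ∑ j ∈ locIdx n a b, disp n j ^ 2 ≤
      576 * ∫ t in Ioc (max a 0) (min (b + 1 / n) 1), Ef n t ^ 2 := by
  classical
  have hn0 : (0 : ℝ) < n := by exact_mod_cast hn
  have hA0 : (0 : ℝ) < (farey n).card := by exact_mod_cast t1_card_pos hn
  have hlow := farey_card_lower n
  set A : ℝ := ((farey n).card : ℝ) with hA
  -- the last point has no displacement
  set J : Finset (Fin (farey n).card) := (locIdx n a b).filter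
    (fun j => (j : ℕ) + 1 < (farey n).card) with hJ
  have h1 : ∑ j ∈ locIdx n a b, disp n j ^ 2 = ∑ j ∈ J, disp n j ^ 2 := by
    symm
    refine Finset.sum_subset (Finset.filter_subset _ _) fun j hj hj' => ?_
    have h2 : (j : ℕ) + 1 = (farey n).card := by
      have h3 : ¬ ((j : ℕ) + 1 < (farey n).card) := by
        intro h
        exact hj' (Finset.mem_filter.2 ⟨hj, h⟩)
      have := j.2
      omega
    rw [disp_eq hn, h2, gg_card hn]
    simp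
  rw [h1]
  set I : Fin (farey n).card → Set ℝ := fun j => Ioc (gg n (j + 1)) (gg n (j + 2)) with hI
  have h2 : ∀ j ∈ J, disp n j ^ 2 ≤ (4 * (n : ℝ) ^ 2 / A ^ 2) * ∫ t in I j, Ef n t ^ 2 := by
    intro j hj
    have hj2 : (j : ℕ) + 1 < (farey n).card := (Finset.mem_filter.1 hj).2
    rw [disp_eq hn]
    have h3 := u_sq_le hn (k := (j : ℕ) + 1) (by omega) hj2
    rw [intervalIntegral.integral_of_le (gg_lt hj2).le] at h3
    rw [div_le_iff₀ (by positivity)]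
    calc ((farey n).card * gg n (j + 1) - ((j + 1 : ℕ) : ℝ)) ^ 2
        ≤ 4 * (n : ℝ) ^ 2 * ∫ t in Ioc (gg n (j + 1)) (gg n (j + 1 + 1)), Ef n t ^ 2 := h3
      _ = _ := by
        have hA0' : ((farey n).card : ℝ) ≠ 0 := hA0.ne'
        simp only [hI]
        rw [hA]
        field_simp
  have hint : ∀ x y : ℝ, IntegrableOn (fun t => Ef n t ^ 2) (Ioc x y) := by
    intro x y
    rcases le_total x y with h | h
    · exact (intervalIntegrable_iff_integrableOn_Ioc_of_le h).1 (Ef_sq_ii n x y)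
    · rw [Ioc_eq_empty (not_lt.2 h)]
      exact integrableOn_empty
  have hmono : ∀ i j : ℕ, i ≤ j → j ≤ (farey n).card → gg n i ≤ gg n j := by
    intro i j hij
    induction j, hij using Nat.le_induction with
    | base => exact fun _ => le_rfl
    | succ m hm ih =>
      intro hm2
      exact (ih (by omega)).trans (gg_lt (by omega)).le
  have hdisj : (J : Set (Fin (farey n).card)).Pairwise (Function.onFun Disjoint I) := by
    have key : ∀ i j : Fin (farey n).card, i ∈ J → j ∈ J → i < j → Disjoint (I i) (I j) := by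
      intro i j _ hj hij
      rw [Set.disjoint_left]
      intro t ht ht'
      have hj2 : (j : ℕ) + 1 < (farey n).card := (Finset.mem_filter.1 hj).2
      have h4 : gg n (i + 2) ≤ gg n (j + 1) := by
        rw [Fin.lt_def] at hij
        exact hmono _ _ (by omega) (by omega)
      exact absurd (ht.2.trans h4) (not_le.2 ht'.1)
    intro i hi j hj hij
    rcases lt_or_gt_of_ne hij with h | h
    · exact key i j hi hj h
    · exact (key j i hj hi h).symm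
  have h3 : ∑ j ∈ J, ∫ t in I j, Ef n t ^ 2 = ∫ t in ⋃ j ∈ J, I j, Ef n t ^ 2 := by
    rw [integral_biUnion_finset]
    · exact fun j _ => measurableSet_Ioc
    · exact hdisj
    · exact fun j _ => hint _ _
  have h4 : ∫ t in ⋃ j ∈ J, I j, Ef n t ^ 2 ≤
      ∫ t in Ioc (max a 0) (min (b + 1 / n) 1), Ef n t ^ 2 := by
    refine setIntegral_mono_set (hint _ _) (Eventually.of_forall fun t => sq_nonneg _) ?_
    refine HasSubset.Subset.eventuallyLE ?_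
    intro t ht
    rw [mem_iUnion₂] at ht
    obtain ⟨j, hj, ht⟩ := ht
    have hj2 : (j : ℕ) + 1 < (farey n).card := (Finset.mem_filter.1 hj).2
    have hj1 : a ≤ fareyNth n j ∧ fareyNth n j ≤ b := by
      have := (Finset.mem_filter.1 hj).1
      simpa [locIdx] using this
    have h5 : gg n (j + 1) = fareyNth n j := gg_succ j.2
    have h6 := gap_upper hn (k := (j : ℕ) + 1) (by omega) hj2
    refine ⟨?_, ?_⟩
    · rw [max_lt_iff]
      refine ⟨?_, lt_of_le_of_lt gg_nonneg ht.1⟩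
      have := ht.1
      rw [h5] at this
      exact lt_of_le_of_lt hj1.1 this
    · rw [le_min_iff]
      refine ⟨?_, ht.2.trans gg_le_one⟩
      have h7 : t ≤ gg n (j + 1) + 1 / n := ht.2.trans h6
      rw [h5] at h7
      have := hj1.2
      linarith
  have h5 : 0 ≤ ∫ t in Ioc (max a 0) (min (b + 1 / n) 1), Ef n t ^ 2 :=
    integral_nonneg fun t => sq_nonneg _
  calc (n : ℝ) ^ 2 * ∑ j ∈ J, disp n j ^ 2
      ≤ (n : ℝ) ^ 2 * ∑ j ∈ J, (4 * (n : ℝ) ^ 2 / A ^ 2) * ∫ t in I j, Ef n t ^ 2 := by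
        gcongr with j hj
        exact h2 j hj
    _ = (4 * ((n : ℝ) ^ 2 * (n : ℝ) ^ 2) / A ^ 2) * ∫ t in ⋃ j ∈ J, I j, Ef n t ^ 2 := by
        rw [← Finset.mul_sum, h3]
        ring
    _ ≤ (4 * ((12 * A) * (12 * A)) / A ^ 2) *
        ∫ t in Ioc (max a 0) (min (b + 1 / n) 1), Ef n t ^ 2 := by
        gcongr
    _ = _ := by
        field_simp
        ring

/-! ### the two parts of the discrepancy -/

/-- the part of the small multiples -/
def Elo (n : ℕ) (Y t : ℝ) : ℝ :=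
  ∑ d ∈ Finset.Icc 1 n, (if Y < d then 0 else Mx ((n : ℝ) / d)) * sw ((d : ℝ) * t)

/-- the part of the large multiples -/
def Ehi (n : ℕ) (Y t : ℝ) : ℝ :=
  ∑ d ∈ Finset.Icc 1 n, (if Y < d then Mx ((n : ℝ) / d) else 0) * sw ((d : ℝ) * t)

lemma Ef_split (n : ℕ) (Y t : ℝ) : Ef n t = -(Elo n Y t + Ehi n Y t) - 1 / 2 := by
  unfold Ef Elo Ehi
  rw [← Finset.sum_add_distrib]
  congr 2
  refine Finset.sum_congr rfl fun d _ => ?_
  split_ifs <;> ring

lemma abs_sw_le (x : ℝ) : |sw x| ≤ 1 / 2 := by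
  unfold H332.FL.sw
  have h1 := Int.fract_nonneg x
  have h2 := Int.fract_lt_one x
  rw [abs_le]
  constructor <;> linarith

lemma Mx_bd {σ C : ℝ} (h : ∀ y : ℝ, 1 ≤ y → |Mx y| ≤ C * y ^ σ) {n d : ℕ} (hn : 1 ≤ n)
    (hd : d ∈ Finset.Icc 1 n) : |Mx ((n : ℝ) / d)| ≤ C * (n : ℝ) ^ σ * (d : ℝ) ^ (-σ) := by
  rw [Finset.mem_Icc] at hd
  have hn0 : (0 : ℝ) < n := by exact_mod_cast hn
  have hd0 : (0 : ℝ) < d := by exact_mod_cast hd.1
  have h1 := h ((n : ℝ) / d) (by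
    rw [one_le_div hd0]; exact_mod_cast hd.2)
  rw [Real.div_rpow hn0.le hd0.le] at h1
  rw [Real.rpow_neg hd0.le]
  calc _ ≤ _ := h1
    _ = _ := by ring

lemma Elo_le {σ C : ℝ} (hσ1 : σ ≤ 1) (hC : 0 < C)
    (h : ∀ y : ℝ, 1 ≤ y → |Mx y| ≤ C * y ^ σ) {n : ℕ} (hn : 1 ≤ n) {Y : ℝ} (hY : 1 ≤ Y) (t : ℝ) :
    |Elo n Y t| ≤ C * (n : ℝ) ^ σ * Y ^ (1 - σ) * (1 + Real.log n) := by
  unfold Elo
  have h1 : ∀ d ∈ Finset.Icc 1 n, |(if Y < (d : ℝ) then 0 else Mx ((n : ℝ) / d)) *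
      sw ((d : ℝ) * t)| ≤ C * (n : ℝ) ^ σ * Y ^ (1 - σ) * ((d : ℝ)⁻¹) := by
    intro d hd
    have hb := Mx_bd h hn hd
    rw [Finset.mem_Icc] at hd
    have hd0 : (0 : ℝ) < d := by exact_mod_cast hd.1
    split_ifs with hYd
    · rw [zero_mul, abs_zero]
      positivity
    · rw [abs_mul]
      have h2 := abs_sw_le ((d : ℝ) * t)
      have h3 : (d : ℝ) ^ (-σ) ≤ Y ^ (1 - σ) * (d : ℝ)⁻¹ := by
        have e : (d : ℝ) ^ (-σ) = (d : ℝ) ^ (1 - σ) * (d : ℝ)⁻¹ := by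
          rw [← Real.rpow_neg_one, ← Real.rpow_add hd0]
          congr 1
          ring
        rw [e]
        gcongr
        exact not_lt.1 hYd
      calc |Mx ((n : ℝ) / d)| * |sw ((d : ℝ) * t)| ≤ |Mx ((n : ℝ) / d)| * 1 :=
            mul_le_mul_of_nonneg_left (h2.trans (by norm_num)) (abs_nonneg _)
        _ = |Mx ((n : ℝ) / d)| := mul_one _
        _ ≤ C * (n : ℝ) ^ σ * (d : ℝ) ^ (-σ) := hb
        _ ≤ C * (n : ℝ) ^ σ * (Y ^ (1 - σ) * (d : ℝ)⁻¹) := by gcongr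
        _ = _ := by ring
  refine (Finset.abs_sum_le_sum_abs _ _).trans ((Finset.sum_le_sum h1).trans ?_)
  rw [← Finset.mul_sum]
  have h2 : ∑ d ∈ Finset.Icc 1 n, ((d : ℝ))⁻¹ ≤ 1 + Real.log n := by
    have h3 := harmonic_le_one_add_log n
    rw [harmonic_eq_sum_Icc] at h3
    push_cast at h3
    exact h3
  gcongr

lemma Ehi_ii (n : ℕ) (Y x y : ℝ) : IntervalIntegrable (fun t => Ehi n Y t ^ 2) volume x y := by
  set S : ℝ := ∑ d ∈ Finset.Icc 1 n, |Mx ((n : ℝ) / d)| with hS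
  have hS0 : 0 ≤ S := Finset.sum_nonneg fun d _ => abs_nonneg _
  have hb : ∀ t, |Ehi n Y t| ≤ S := by
    intro t
    unfold Ehi
    refine (Finset.abs_sum_le_sum_abs _ _).trans (Finset.sum_le_sum fun d _ => ?_)
    rw [abs_mul]
    have h1 := abs_sw_le ((d : ℝ) * t)
    split_ifs
    · have := abs_nonneg (Mx ((n : ℝ) / d))
      nlinarith
    · rw [abs_zero, zero_mul]
      exact abs_nonneg _
  have hm : Measurable (Ehi n Y) := by
    unfold Ehi
    refine Finset.measurable_sum _ fun d _ => Measurable.const_mul ?_ _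
    exact H332.FL.measurable_sw_comp (by fun_prop)
  refine (intervalIntegrable_const (c := S ^ 2)).mono_fun (hm.pow_const 2).aestronglyMeasurable
    (Eventually.of_forall fun t => ?_)
  simp only [Real.norm_eq_abs, abs_pow, sq_abs]
  have h1 := hb t
  have h2 := abs_nonneg (Ehi n Y t)
  rw [← sq_abs (Ehi n Y t)]
  nlinarith

lemma Ehi_sq {σ σ' C : ℝ} (hσ' : 1 / 2 < σ') (hσσ : σ' ≤ σ) (hC : 0 < C)
    (h : ∀ y : ℝ, 1 ≤ y → |Mx y| ≤ C * y ^ σ) :
    ∃ K : ℝ, 0 < K ∧ ∀ n : ℕ, 1 ≤ n → ∀ Y : ℝ, 1 ≤ Y →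
      ∫ t in (0 : ℝ)..1, Ehi n Y t ^ 2 ≤ K * ((n : ℝ) ^ σ * Y ^ (-(σ - σ'))) ^ 2 := by
  obtain ⟨K0, hK0, hq⟩ := H332.FL.quad_bound σ' hσ'
  refine ⟨K0 * C ^ 2, by positivity, fun n hn Y hY => ?_⟩
  have hb := hq n (fun d => if Y < (d : ℝ) then Mx ((n : ℝ) / d) else 0)
    (C * ((n : ℝ) ^ σ * Y ^ (-(σ - σ')))) (by positivity) (by
    intro d hd
    have hb := Mx_bd h hn hd
    rw [Finset.mem_Icc] at hd
    have hd0 : (0 : ℝ) < d := by exact_mod_cast hd.1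
    split_ifs with hYd
    · refine hb.trans ?_
      have e : (d : ℝ) ^ (-σ) = (d : ℝ) ^ (-(σ - σ')) * (d : ℝ) ^ (-σ') := by
        rw [← Real.rpow_add hd0]
        congr 1
        ring
      rw [e]
      have h2 : (d : ℝ) ^ (-(σ - σ')) ≤ Y ^ (-(σ - σ')) :=
        Real.rpow_le_rpow_of_nonpos (by linarith) hYd.le (by linarith)
      calc C * (n : ℝ) ^ σ * ((d : ℝ) ^ (-(σ - σ')) * (d : ℝ) ^ (-σ'))
          ≤ C * (n : ℝ) ^ σ * (Y ^ (-(σ - σ')) * (d : ℝ) ^ (-σ')) := by gcongr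
        _ = _ := by ring
    · rw [abs_zero]
      positivity)
  calc ∫ t in (0 : ℝ)..1, Ehi n Y t ^ 2 ≤ K0 * (C * ((n : ℝ) ^ σ * Y ^ (-(σ - σ')))) ^ 2 := hb
    _ = _ := by ring

/-- **The local second moment.** -/
lemma Ef_sq_loc {σ ε C : ℝ} (hσ : 1 / 2 < σ) (hσ1 : σ ≤ 1) (hε : 0 < ε) (hC : 0 < C)
    (h : ∀ y : ℝ, 1 ≤ y → |Mx y| ≤ C * y ^ σ) :
    ∃ K : ℝ, 0 < K ∧ ∀ n : ℕ, 2 ≤ n → ∀ a b L : ℝ, 0 ≤ a → b ≤ 1 → b - a ≤ 2 * L → 1 / n ≤ L →
      L ≤ 1 → ∫ t in Ioc a b, Ef n t ^ 2 ≤ K * (n : ℝ) ^ ε * ((n : ℝ) ^ (2 * σ) * L ^ (2 * σ - 1)) := by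
  set σ' : ℝ := min (1 / 2 + ε / 2) σ with hσ'
  have hs1 : 1 / 2 < σ' := by rw [hσ']; apply lt_min <;> linarith
  have hs2 : σ' ≤ σ := min_le_right _ _
  have hs3 : σ' ≤ 1 / 2 + ε / 2 := min_le_left _ _
  obtain ⟨K1, hK1, hH⟩ := Ehi_sq hs1 hs2 hC h
  -- `1 + log n ≤ K2 n^(ε/2)`
  obtain ⟨K2, hK2, hlog⟩ : ∃ K2 : ℝ, 0 < K2 ∧ ∀ n : ℕ, 1 ≤ n →
      1 + Real.log n ≤ K2 * (n : ℝ) ^ (ε / 2) := by
    refine ⟨1 + 2 / ε, by positivity, fun n hn => ?_⟩
    have hn1 : (1 : ℝ) ≤ n := by exact_mod_cast hn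
    have h1 := Real.log_le_rpow_div (show (0 : ℝ) ≤ n by linarith) (show 0 < ε / 2 by linarith)
    have h2 : (1 : ℝ) ≤ (n : ℝ) ^ (ε / 2) := Real.one_le_rpow hn1 (by linarith)
    calc 1 + Real.log n ≤ (n : ℝ) ^ (ε / 2) + (n : ℝ) ^ (ε / 2) / (ε / 2) := by linarith
      _ = _ := by field_simp
  refine ⟨6 * C ^ 2 * K2 ^ 2 + 3 * K1 + 3 / 2, by positivity, fun n hn a b L ha hb hab hL hL1 => ?_⟩
  have hn1 : (1 : ℝ) ≤ n := by
    have : (2 : ℝ) ≤ n := by exact_mod_cast hn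
    linarith
  have hn0 : (0 : ℝ) < n := by linarith
  have hL0 : 0 < L := lt_of_lt_of_le (by positivity) hL
  set Y : ℝ := 1 / L with hY
  have hY1 : 1 ≤ Y := by rw [hY, le_div_iff₀ hL0]; linarith
  have hYn : Y ≤ n := by
    rw [hY, div_le_iff₀ hL0]
    rw [div_le_iff₀ hn0] at hL
    linarith
  set B : ℝ := C * (n : ℝ) ^ σ * Y ^ (1 - σ) * (1 + Real.log n) with hB
  have hlogn : 0 ≤ Real.log n := Real.log_nonneg hn1
  have hB0 : 0 ≤ B := by positivity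
  -- pointwise
  have hpt : ∀ t, Ef n t ^ 2 ≤ 3 * B ^ 2 + 3 / 4 + 3 * Ehi n Y t ^ 2 := by
    intro t
    rw [Ef_split n Y t]
    have h1 := Elo_le hσ1 hC h (by omega : 1 ≤ n) hY1 t
    rw [← hB] at h1
    have h2 : Elo n Y t ^ 2 ≤ B ^ 2 := sq_le_sq' (by linarith [neg_abs_le (Elo n Y t)])
      ((le_abs_self _).trans h1)
    nlinarith [sq_nonneg (Elo n Y t - Ehi n Y t), sq_nonneg (Elo n Y t - 1 / 2),
      sq_nonneg (Ehi n Y t - 1 / 2)]
  have hint : ∀ x y : ℝ, IntegrableOn (fun t => Ehi n Y t ^ 2) (Ioc x y) := by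
    intro x y
    rcases le_total x y with h | h
    · exact (intervalIntegrable_iff_integrableOn_Ioc_of_le h).1 (Ehi_ii n Y x y)
    · rw [Ioc_eq_empty (not_lt.2 h)]
      exact integrableOn_empty
  have hint2 : ∀ x y : ℝ, IntegrableOn (fun t => Ef n t ^ 2) (Ioc x y) := by
    intro x y
    rcases le_total x y with h | h
    · exact (intervalIntegrable_iff_integrableOn_Ioc_of_le h).1 (Ef_sq_ii n x y)
    · rw [Ioc_eq_empty (not_lt.2 h)]
      exact integrableOn_empty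
  have h1 : ∫ t in Ioc a b, Ef n t ^ 2 ≤
      ∫ t in Ioc a b, ((3 * B ^ 2 + 3 / 4) + 3 * Ehi n Y t ^ 2) := by
    refine setIntegral_mono (hint2 a b) ?_ hpt
    exact (integrableOn_const (by simp)).add ((hint a b).const_mul 3)
  have h2 : ∫ t in Ioc a b, ((3 * B ^ 2 + 3 / 4) + 3 * Ehi n Y t ^ 2) =
      (volume.real (Ioc a b)) * (3 * B ^ 2 + 3 / 4) + 3 * ∫ t in Ioc a b, Ehi n Y t ^ 2 := by
    have hcI : IntegrableOn (fun _ : ℝ => (3 * B ^ 2 + 3 / 4 : ℝ)) (Ioc a b) volume :=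
      integrableOn_const (by simp)
    rw [integral_add (μ := volume.restrict (Ioc a b)) hcI ((hint a b).const_mul 3),
      integral_const_mul, setIntegral_const, smul_eq_mul]
  have h3 : volume.real (Ioc a b) ≤ 2 * L := by
    rw [Real.volume_real_Ioc]
    exact max_le hab (by linarith)
  have h4 : ∫ t in Ioc a b, Ehi n Y t ^ 2 ≤ K1 * ((n : ℝ) ^ σ * Y ^ (-(σ - σ'))) ^ 2 := by
    refine le_trans ?_ (hH n (by omega) Y hY1)
    rw [intervalIntegral.integral_of_le zero_le_one]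
    refine setIntegral_mono_set (hint 0 1) (Eventually.of_forall fun t => sq_nonneg _) ?_
    exact HasSubset.Subset.eventuallyLE (Ioc_subset_Ioc ha hb)
  -- powers
  have eB : B ^ 2 ≤ C ^ 2 * K2 ^ 2 * (n : ℝ) ^ ε * (n : ℝ) ^ (2 * σ) * L ^ (2 * σ - 2) := by
    have h5 : (1 + Real.log n) ^ 2 ≤ (K2 * (n : ℝ) ^ (ε / 2)) ^ 2 :=
      pow_le_pow_left₀ (by linarith) (hlog n (by omega)) 2
    have e1 : (K2 * (n : ℝ) ^ (ε / 2)) ^ 2 = K2 ^ 2 * (n : ℝ) ^ ε := by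
      rw [mul_pow, ← Real.rpow_natCast ((n : ℝ) ^ (ε / 2)) 2, ← Real.rpow_mul hn0.le]
      congr 2
      push_cast
      ring
    have e2 : ((n : ℝ) ^ σ) ^ 2 = (n : ℝ) ^ (2 * σ) := by
      rw [← Real.rpow_natCast, ← Real.rpow_mul hn0.le]
      congr 1
      push_cast
      ring
    have e3 : (Y ^ (1 - σ)) ^ 2 = L ^ (2 * σ - 2) := by
      rw [hY, one_div, Real.inv_rpow hL0.le, ← Real.rpow_neg hL0.le, ← Real.rpow_natCast,
        ← Real.rpow_mul hL0.le]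
      congr 1
      push_cast
      ring
    rw [e1] at h5
    calc B ^ 2 = C ^ 2 * ((n : ℝ) ^ σ) ^ 2 * (Y ^ (1 - σ)) ^ 2 * (1 + Real.log n) ^ 2 := by
          rw [hB]; ring
      _ ≤ C ^ 2 * ((n : ℝ) ^ σ) ^ 2 * (Y ^ (1 - σ)) ^ 2 * (K2 ^ 2 * (n : ℝ) ^ ε) := by gcongr
      _ = _ := by rw [e2, e3]; ring
  have eL : L ^ (2 * σ - 2) * L = L ^ (2 * σ - 1) := by
    rw [← Real.rpow_add_one hL0.ne']
    congr 1
    ring
  have eL2 : L ≤ L ^ (2 * σ - 1) := by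
    calc L = L ^ (1 : ℝ) := (Real.rpow_one L).symm
      _ ≤ L ^ (2 * σ - 1) := Real.rpow_le_rpow_of_exponent_ge hL0 hL1 (by linarith)
  have hnε : (1 : ℝ) ≤ (n : ℝ) ^ ε := Real.one_le_rpow hn1 hε.le
  have hnσ : (1 : ℝ) ≤ (n : ℝ) ^ (2 * σ) := Real.one_le_rpow hn1 (by linarith)
  have eH : ((n : ℝ) ^ σ * Y ^ (-(σ - σ'))) ^ 2 ≤
      (n : ℝ) ^ ε * ((n : ℝ) ^ (2 * σ) * L ^ (2 * σ - 1)) := by
    have e2 : ((n : ℝ) ^ σ) ^ 2 = (n : ℝ) ^ (2 * σ) := by
      rw [← Real.rpow_natCast, ← Real.rpow_mul hn0.le]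
      congr 1
      push_cast
      ring
    have e3 : (Y ^ (-(σ - σ'))) ^ 2 = L ^ (2 * σ - 1) * Y ^ (2 * σ' - 1) := by
      rw [hY, one_div, Real.inv_rpow hL0.le, Real.inv_rpow hL0.le, ← Real.rpow_neg hL0.le,
        ← Real.rpow_neg hL0.le, ← Real.rpow_natCast, ← Real.rpow_mul hL0.le,
        ← Real.rpow_add hL0]
      congr 1
      push_cast
      ring
    have e4 : Y ^ (2 * σ' - 1) ≤ (n : ℝ) ^ ε := by
      calc Y ^ (2 * σ' - 1) ≤ (n : ℝ) ^ (2 * σ' - 1) :=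
            Real.rpow_le_rpow (by linarith) hYn (by linarith)
        _ ≤ (n : ℝ) ^ ε := Real.rpow_le_rpow_of_exponent_le hn1 (by linarith)
    rw [mul_pow, e2, e3]
    calc (n : ℝ) ^ (2 * σ) * (L ^ (2 * σ - 1) * Y ^ (2 * σ' - 1))
        ≤ (n : ℝ) ^ (2 * σ) * (L ^ (2 * σ - 1) * (n : ℝ) ^ ε) := by gcongr
      _ = _ := by ring
  set P : ℝ := (n : ℝ) ^ ε * ((n : ℝ) ^ (2 * σ) * L ^ (2 * σ - 1)) with hP
  have hP0 : 0 < P := by positivity
  have hLP : L ≤ P := by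
    calc L ≤ L ^ (2 * σ - 1) := eL2
      _ = 1 * (1 * L ^ (2 * σ - 1)) := by ring
      _ ≤ P := by rw [hP]; gcongr
  have hvol0 : 0 ≤ volume.real (Ioc a b) := measureReal_nonneg
  have h6 : volume.real (Ioc a b) * (3 * B ^ 2 + 3 / 4) ≤
      (6 * C ^ 2 * K2 ^ 2 + 3 / 2) * P := by
    calc volume.real (Ioc a b) * (3 * B ^ 2 + 3 / 4)
        ≤ (2 * L) * (3 * B ^ 2 + 3 / 4) := by gcongr
      _ ≤ (2 * L) * (3 * (C ^ 2 * K2 ^ 2 * (n : ℝ) ^ ε * (n : ℝ) ^ (2 * σ) * L ^ (2 * σ - 2)) +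
            3 / 4) := by gcongr
      _ = 6 * C ^ 2 * K2 ^ 2 * ((n : ℝ) ^ ε * ((n : ℝ) ^ (2 * σ) * (L ^ (2 * σ - 2) * L))) +
            3 / 2 * L := by ring
      _ = 6 * C ^ 2 * K2 ^ 2 * P + 3 / 2 * L := by rw [eL]
      _ ≤ 6 * C ^ 2 * K2 ^ 2 * P + 3 / 2 * P := by gcongr
      _ = _ := by ring
  calc ∫ t in Ioc a b, Ef n t ^ 2
      ≤ volume.real (Ioc a b) * (3 * B ^ 2 + 3 / 4) + 3 * ∫ t in Ioc a b, Ehi n Y t ^ 2 :=
        h1.trans h2.le
    _ ≤ (6 * C ^ 2 * K2 ^ 2 + 3 / 2) * P + 3 * (K1 * P) := by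
        have h7 : ∫ t in Ioc a b, Ehi n Y t ^ 2 ≤ K1 * P :=
          h4.trans (mul_le_mul_of_nonneg_left eH hK1.le)
        linarith
    _ = (6 * C ^ 2 * K2 ^ 2 + 3 * K1 + 3 / 2) * P := by ring
    _ = _ := by rw [hP]; ring

/-- **The upper bound in short windows.** -/
theorem window_sum {σ ε C : ℝ} (hσ : 1 / 2 < σ) (hσ1 : σ ≤ 1) (hε : 0 < ε) (hC : 0 < C)
    (h : ∀ y : ℝ, 1 ≤ y → |Mx y| ≤ C * y ^ σ) :
    ∃ K > 0, ∀ n : ℕ, 2 ≤ n → ∀ x L : ℝ, 1 / n ≤ L → L ≤ 1 →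
      localSum x (x + L) n ≤ K * (n : ℝ) ^ ε * (n * L) ^ σ := by
  obtain ⟨K0, hK0, hE⟩ := Ef_sq_loc hσ hσ1 (show 0 < 2 * ε by linarith) hC h
  refine ⟨Real.sqrt (1152 * K0), by positivity, fun n hn x L hL hL1 => ?_⟩
  have hn1 : (1 : ℝ) ≤ n := by
    have : (2 : ℝ) ≤ n := by exact_mod_cast hn
    linarith
  have hn0 : (0 : ℝ) < n := by linarith
  have hL0 : 0 < L := lt_of_lt_of_le (by positivity) hL
  have hnL : 1 ≤ (n : ℝ) ^ 2 * L := by
    rw [div_le_iff₀ hn0] at hL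
    nlinarith
  have h1 : localSum x (x + L) n ≤ ∑ j ∈ locIdx n x (x + L), disp n j := by
    unfold localSum locIdx
    rw [Finset.sum_filter]
    refine Finset.sum_le_sum fun j _ => ?_
    have h4 := disp_nonneg n j
    split_ifs with h5 h6 h6
    · exact le_rfl
    · exact absurd ⟨h5.1.le, h5.2.le⟩ h6
    · exact h4
    · exact le_rfl
  set S := ∑ j ∈ locIdx n x (x + L), disp n j with hS
  have hS0 : 0 ≤ S := Finset.sum_nonneg fun j _ => disp_nonneg n j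
  have h2 : S ^ 2 ≤ (locIdx n x (x + L)).card * ∑ j ∈ locIdx n x (x + L), disp n j ^ 2 :=
    sq_sum_le_card_mul_sum_sq
  have h3 := locIdx_card (n := n) (a := x) (b := x + L) (by linarith)
  have h4 := disp_sq_loc (by omega : 1 ≤ n) (a := x) (b := x + L)
  have h5 : min (x + L + 1 / n) 1 - max x 0 ≤ 2 * L := by
    have h6 : min (x + L + 1 / n) 1 ≤ x + L + 1 / n := min_le_left _ _
    have h7 : x ≤ max x 0 := le_max_left _ _
    linarith
  have h6 := hE n hn (max x 0) (min (x + L + 1 / n) 1) L (le_max_right _ _) (min_le_right _ _)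
    h5 hL hL1
  set Q := ∑ j ∈ locIdx n x (x + L), disp n j ^ 2 with hQ
  have hQ0 : 0 ≤ Q := Finset.sum_nonneg fun j _ => sq_nonneg _
  have h7 : S ^ 2 ≤ 1152 * K0 * ((n : ℝ) ^ ε * ((n : ℝ) * L) ^ σ) ^ 2 := by
    have e1 : ((n : ℝ) ^ ε * ((n : ℝ) * L) ^ σ) ^ 2 =
        (n : ℝ) ^ (2 * ε) * ((n : ℝ) ^ (2 * σ) * L ^ (2 * σ)) := by
      rw [Real.mul_rpow hn0.le hL0.le, mul_pow, mul_pow, ← Real.rpow_natCast, ← Real.rpow_natCast,
        ← Real.rpow_natCast, ← Real.rpow_mul hn0.le, ← Real.rpow_mul hn0.le,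
        ← Real.rpow_mul hL0.le]
      push_cast
      rw [mul_comm ε 2, mul_comm σ 2]
    have e2 : L * L ^ (2 * σ - 1) = L ^ (2 * σ) := by
      rw [mul_comm, ← Real.rpow_add_one hL0.ne']
      congr 1
      ring
    calc S ^ 2 ≤ (locIdx n x (x + L)).card * Q := h2
      _ ≤ ((n : ℝ) ^ 2 * (x + L - x) + 1) * Q := mul_le_mul_of_nonneg_right h3 hQ0
      _ ≤ (2 * ((n : ℝ) ^ 2 * L)) * Q := by
          refine mul_le_mul_of_nonneg_right ?_ hQ0
          have : x + L - x = L := by ring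
          rw [this]
          linarith
      _ = 2 * L * ((n : ℝ) ^ 2 * Q) := by ring
      _ ≤ 2 * L * (576 * (K0 * (n : ℝ) ^ (2 * ε) * ((n : ℝ) ^ (2 * σ) * L ^ (2 * σ - 1)))) :=
          mul_le_mul_of_nonneg_left (h4.trans (mul_le_mul_of_nonneg_left h6 (by norm_num)))
            (by positivity)
      _ = 1152 * K0 * ((n : ℝ) ^ (2 * ε) * ((n : ℝ) ^ (2 * σ) * (L * L ^ (2 * σ - 1)))) := by ring
      _ = _ := by rw [e2, e1]
  have h8 := Real.sqrt_le_sqrt h7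
  rw [Real.sqrt_sq hS0, Real.sqrt_mul (by positivity), Real.sqrt_sq (by positivity)] at h8
  calc localSum x (x + L) n ≤ S := h1
    _ ≤ Real.sqrt (1152 * K0) * ((n : ℝ) ^ ε * ((n : ℝ) * L) ^ σ) := h8
    _ = _ := by ring

/-- **The limit in the windows at rational numbers.** -/
theorem window_lim {p q : ℕ} (hpq : p < q) (hco : Nat.Coprime p q) {c κ : ℝ} (hc : 0 ≤ c)
    (hc1 : c < 1) (hκ : 0 < κ) :
    Tendsto (fun n : ℕ => Real.log (localSum (p / q) (p / q + κ * (n : ℝ) ^ (-c)) n) /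
      Real.log n) atTop (𝓝 ((1 - c) * zetaSup)) :=
  window_limit (fun hσ hσ1 hε hC h => window_sum hσ hσ1 hε hC h) hpq hco hc hc1 hκ

/-- **The upper bound in the windows at all points.** -/
theorem window_up (x : ℝ) {c κ : ℝ} (hc : 0 ≤ c) (hc1 : c < 1) (hκ : 0 < κ) {ε : ℝ} (hε : 0 < ε) :
    ∀ᶠ n : ℕ in atTop, localSum x (x + κ * (n : ℝ) ^ (-c)) n ≤ (n : ℝ) ^ ((1 - c) * zetaSup + ε) :=
  window_upper (fun hσ hσ1 hε hC h => window_sum hσ hσ1 hε hC h) x hc hc1 hκ hε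

end

end Pool.Agent.Y754.FR
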